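import Pool.Agent.Y133.Half.HalfDefs

/-!
# Open subvarieties of cellular varieties: definitions

In the intended use `k` is an algebraic closure of the field of rational numbers, embedded in the
complex numbers, the class of varieties consists of the smooth projective varieties over `k`, the
operations on cycles represent the operations on the Chow groups with rational coefficients, and
`W` is the singular cohomology with rational coefficients.
-/

open CategoryTheory AlgebraicGeometry

universe u v

namespace Pool.Agent.R914.Cell

open Pool.Agent.H914 Pool.Agent.H914.VarClass Pool.Agent.H914.VarClass.Obj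
  Pool.Agent.H914.WeilCohomology

open Pool.Agent.Y133.Half (algSet)

variable {k : Type u} [Field k] {𝒱 : VarClass k} {ops : CycleOps 𝒱}

/-- The coefficients of the cohomology theory are the rational numbers. -/
def HasRationalCoefficients (W : WeilCohomology.{u, v} ops) : Prop :=
  ∀ r : W.K, ∃ q : ℚ, (q : W.K) = r

/-- `w` is a cycle of dimension `e` on `Y` (there is only the cycle `0` if `e > dim Y`). -/
def IsDim (Y : 𝒱.Obj) (e : ℕ) (w : Y.Cycles) : Prop :=
  w = 0 ∨ ∃ q, q + e = Y.dim ∧ Y.IsCyc q w

/-- Rational equivalence with rational coefficients: for every variety `X` of the class the space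
`triv X` of the cycles which are rationally equivalent to `0`. All that is recorded is that their
classes vanish. -/
structure RatEquiv (W : WeilCohomology.{u, v} ops) where
  /-- the cycles which are rationally equivalent to `0` -/
  triv : ∀ X : 𝒱.Obj, Submodule ℚ X.Cycles
  cl_eq_zero : ∀ (X : 𝒱.Obj) (z : X.Cycles), z ∈ triv X → W.cl X z = 0

/-- The cycle class map of `X` is an isomorphism from the Chow groups with rational coefficients to
the cohomology, as for the varieties with a cellular decomposition: the classes of the algebraic
cycles span the cohomology, and cycles with class `0` are rationally equivalent to `0`. -/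
def IsCellular (W : WeilCohomology.{u, v} ops) (R : RatEquiv W) (X : 𝒱.Obj) : Prop :=
  Submodule.span W.K (algSet W X) = ⊤ ∧ ∀ z : X.Cycles, W.cl X z = 0 → z ∈ R.triv X

/-- A variety `X` of the class with a finite family of morphisms `f i : Y i ⟶ X` from varieties of
the class. It describes the open subvariety `X ∖ ⋃ i, f i (Y i)` of `X` (any open subvariety of a
smooth projective variety over a field of characteristic zero is of this form, by resolution of
singularities of the components of its complement). -/
structure OpenVar (𝒱 : VarClass k) where
  /-- the ambient variety -/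
  X : 𝒱.Obj
  /-- the index set -/
  ι : Type
  [fin : Fintype ι]
  /-- the varieties over the complement -/
  Y : ι → 𝒱.Obj
  /-- the morphisms -/
  f : ∀ i, Y i ⟶ X

attribute [instance] OpenVar.fin

/-- The restriction of the cycle `z` on `X` to the open subvariety is homologically trivial: its
class is a sum of push-forwards of cohomology classes of the varieties `Y i`. -/
def HomTrivial (W : WeilCohomology.{u, v} ops) (V : OpenVar 𝒱) (z : V.X.Cycles) : Prop :=
  ∃ h : ∀ i, W.H (V.Y i), W.cl V.X z = ∑ i, W.push (V.f i) (h i)

/-- The restriction of the cycle `z` of dimension `e` on `X` to the open subvariety is rationally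
trivial: `z` is rationally equivalent on `X` to a sum of push-forwards of cycles of dimension `e`
on the varieties `Y i` (localization sequence). -/
def RatTrivial {W : WeilCohomology.{u, v} ops} (R : RatEquiv W) (V : OpenVar 𝒱) (e : ℕ)
    (z : V.X.Cycles) : Prop :=
  ∃ w : ∀ i, (V.Y i).Cycles, (∀ i, IsDim (V.Y i) e (w i)) ∧
    z - ∑ i, ops.push (V.f i) (w i) ∈ R.triv V.X

/-- The cycle class map of the open subvariety is injective on the cycles of dimension `e` modulo
rational equivalence: homologically trivial cycles are rationally trivial. -/
def HomIsRat {W : WeilCohomology.{u, v} ops} (R : RatEquiv W) (V : OpenVar 𝒱) (e : ℕ) : Prop :=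
  ∀ z : V.X.Cycles, IsDim V.X e z → HomTrivial W V z → RatTrivial R V e z

/-- The cycle `b` on `Y` has intersection number `0` with all cycles of dimension `e`. -/
def NumTrivial (W : WeilCohomology.{u, v} ops) (Y : 𝒱.Obj) (e : ℕ) (b : Y.Cycles) : Prop :=
  ∀ w : Y.Cycles, IsDim Y e w → W.tr Y (W.cl Y b * W.cl Y w) = 0

/-- Numerical and homological equivalence of cycles of codimension `e` on `Y` coincide. -/
def NumIsHom (W : WeilCohomology.{u, v} ops) (Y : 𝒱.Obj) (e : ℕ) : Prop :=
  ∀ b : Y.Cycles, Y.IsCyc e b → NumTrivial W Y e b → W.cl Y b = 0

/-- The class of every algebraic cycle on `Y` is the pull-back of the class of an algebraic cycle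
under the morphism `f`. -/
def IsClassifying (W : WeilCohomology.{u, v} ops) {X Y : 𝒱.Obj} (f : Y ⟶ X) : Prop :=
  ∀ (j : ℕ) (z : Y.Cycles), Y.IsCyc j z →
    ∃ x : X.Cycles, X.IsCyc j x ∧ W.cl Y z = W.map f (W.cl X x)

/-- `G` is a class of varieties whose cycle class maps are isomorphisms, and every variety has a
classifying morphism to a variety of `G`. (If the varieties are the smooth projective ones over an
algebraically closed field, the products of Grassmannians form such a class: the Chow ring with
rational coefficients is generated by the Chern classes of vector bundles which are generated by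
global sections, and such bundles are pull-backs of universal quotient bundles.) -/
structure IsClassifyingClass {W : WeilCohomology.{u, v} ops} (R : RatEquiv W)
    (G : 𝒱.Obj → Prop) : Prop where
  cellular : ∀ X, G X → IsCellular W R X
  enough : ∀ Y : 𝒱.Obj, ∃ (X : 𝒱.Obj) (f : Y ⟶ X), G X ∧ IsClassifying W f

end Pool.Agent.R914.Cell
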