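import Pool.Agent.R914.Cell.Defs

/-!
# Hodge classes with Hodge-Riemann relations: definitions
-/

open CategoryTheory AlgebraicGeometry

universe u v

namespace Pool.Agent.R914.Cell

open Pool.Agent.H914 Pool.Agent.H914.VarClass Pool.Agent.H914.VarClass.Obj
  Pool.Agent.H914.WeilCohomology

section Alg

variable {K : Type*} [Field K] {A : Type*} [Ring A] [Algebra K A]

/-- The product of an element of `S i` and an element of `S j` is in `S (i + j)`. -/
def MulClosed (S : ℕ → Submodule K A) : Prop :=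
  ∀ (i j : ℕ) (a b : A), a ∈ S i → b ∈ S j → a * b ∈ S (i + j)

/-- Hard Lefschetz: for `2 j ≤ n` every element of `S (n - j)` is of the form
`l ^ (n - 2 j) * x` with `x` in `S j`. -/
def LefAlg (S : ℕ → Submodule K A) (l : A) (n : ℕ) : Prop :=
  ∀ j, 2 * j ≤ n → ∀ v ∈ S (n - j), ∃ x ∈ S j, l ^ (n - 2 * j) * x = v

/-- The Hodge-Riemann relations: if `2 j ≤ n` and `x` is a nonzero element of `S j` with
`l ^ (n - 2 j + 1) * x = 0`, then `(-1) ^ j tr(l ^ (n - 2 j) * x * x)` is a positive rational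
number. -/
def HRAlg (S : ℕ → Submodule K A) (tr : A →ₗ[K] K) (l : A) (n : ℕ) : Prop :=
  ∀ j, 2 * j ≤ n → ∀ x ∈ S j, l ^ (n - 2 * j + 1) * x = 0 → x ≠ 0 →
    ∃ r : ℚ, 0 < r ∧ (-1) ^ j * tr (l ^ (n - 2 * j) * x * x) = (r : K)

end Alg

variable {k : Type u} [Field k] {𝒱 : VarClass k} {ops : CycleOps 𝒱}

/-- Spaces `Hdg X j` of cohomology classes of degree `2 j` which contain the classes of the
algebraic cycles of codimension `j` and are stable under products. In the intended use they consist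
of the Hodge classes. -/
structure HodgeSpaces (W : WeilCohomology.{u, v} ops) where
  /-- the Hodge classes of degree `2 j` on `X` -/
  Hdg : ∀ X : 𝒱.Obj, ℕ → Submodule W.K (W.H X)
  gr : ∀ (X : 𝒱.Obj) (j : ℕ), Hdg X j ≤ W.gr X (2 * j)
  cl : ∀ (X : 𝒱.Obj) (j : ℕ) (z : X.Cycles), X.IsCyc j z → W.cl X z ∈ Hdg X j
  mul : ∀ X : 𝒱.Obj, MulClosed (Hdg X)

variable {W : WeilCohomology.{u, v} ops}

/-- Hard Lefschetz for the Hodge classes on `X` and the divisor `D`. -/
def Lefschetz (Ψ : HodgeSpaces W) (X : 𝒱.Obj) (D : X.Cycles) : Prop :=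
  LefAlg (Ψ.Hdg X) (W.cl X D) X.dim

/-- The Hodge-Riemann relations for the Hodge classes on `X` and the divisor `D`. -/
def HodgeRiemann (Ψ : HodgeSpaces W) (X : 𝒱.Obj) (D : X.Cycles) : Prop :=
  HRAlg (Ψ.Hdg X) (W.tr X) (W.cl X D) X.dim

/-- Every variety has a divisor with the hard Lefschetz theorem and the Hodge-Riemann relations. -/
def IsPolarised (Ψ : HodgeSpaces W) : Prop :=
  ∀ X : 𝒱.Obj, ∃ D : X.Cycles, X.IsCyc 1 D ∧ Lefschetz Ψ X D ∧ HodgeRiemann Ψ X D

/-- The Lefschetz (1,1) theorem: the Hodge classes of degree `2` are algebraic. -/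
def LefschetzOneOne (Ψ : HodgeSpaces W) : Prop :=
  ∀ (X : 𝒱.Obj), ∀ x ∈ Ψ.Hdg X 1, ∃ z : X.Cycles, X.IsCyc 1 z ∧ W.cl X z = x

end Pool.Agent.R914.Cell
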