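import Pool.Agent.R914.Cell.Main
import Pool.Agent.R914.Cell.LowDefs

/-!
# Cycles of dimension or codimension at most two on open subvarieties of cellular varieties
-/

open CategoryTheory AlgebraicGeometry

universe u v

namespace Pool.Agent.R914.Cell

open Pool.Agent.H914 Pool.Agent.H914.VarClass Pool.Agent.H914.VarClass.Obj
  Pool.Agent.H914.WeilCohomology

variable {k : Type u} [Field k] {𝒱 : VarClass k} {ops : CycleOps 𝒱}
  {W : WeilCohomology.{u, v} ops} {X Y : 𝒱.Obj} {Ψ : HodgeSpaces W}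

/-- The Hodge classes of degree `2 j` are classes of algebraic cycles. -/
def AlgIn (Ψ : HodgeSpaces W) (X : 𝒱.Obj) (j : ℕ) : Prop :=
  ∀ c ∈ Ψ.Hdg X j, ∃ z : X.Cycles, X.IsCyc j z ∧ W.cl X z = c

lemma algIn_zero (hrat : HasRationalCoefficients W) : AlgIn Ψ X 0 := by
  intro c hc
  have h1 := Ψ.gr X 0 hc
  rw [mul_zero, W.gr_zero, Submodule.mem_span_singleton] at h1
  obtain ⟨r, rfl⟩ := h1
  obtain ⟨q, rfl⟩ := hrat r
  exact ⟨q • X.V.fundCycle, X.V.fundCycle_mem.smul q, by rw [W.cl_smul, W.cl_fund]⟩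

lemma algIn_le_one (hrat : HasRationalCoefficients W) (h : AlgIn Ψ X 1) {j : ℕ} (hj : j ≤ 1) :
    AlgIn Ψ X j := by
  rcases Nat.le_one_iff_eq_zero_or_eq_one.1 hj with rfl | rfl
  · exact algIn_zero hrat
  · exact h

lemma pow_cyc {D : X.Cycles} (hD : X.IsCyc 1 D) (n : ℕ) :
    ∃ z : X.Cycles, X.IsCyc n z ∧ W.cl X z = W.cl X D ^ n := by
  induction n with
  | zero => exact ⟨_, X.V.fundCycle_mem, by rw [W.cl_fund, pow_zero]⟩
  | succ n ih =>
    obtain ⟨z, hz, h⟩ := ih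
    exact ⟨ops.mul z D, ops.mul_mem hz hD, by rw [W.cl_mul, h, pow_succ]⟩

lemma pow_hdg {D : X.Cycles} (hD : X.IsCyc 1 D) (n : ℕ) : W.cl X D ^ n ∈ Ψ.Hdg X n := by
  obtain ⟨z, hz, h⟩ := pow_cyc (W := W) hD n
  rw [← h]
  exact Ψ.cl X n z hz

lemma hdg_even {j : ℕ} {x : W.H X} (hx : x ∈ Ψ.Hdg X j) (a : W.H X) : x * a = a * x :=
  W.even_comm (Ψ.gr X j hx) a

/-- The decomposition of a Hodge class. -/
lemma hdg_decomp {D : X.Cycles} (hD : X.IsCyc 1 D) (hL : Lefschetz Ψ X D) {j : ℕ}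
    (hj : 2 * (j + 1) ≤ X.dim) {x : W.H X} (hx : x ∈ Ψ.Hdg X (j + 1)) :
    ∃ y ∈ Ψ.Hdg X j, W.cl X D ^ (X.dim - 2 * (j + 1) + 1) * (x - W.cl X D * y) = 0 := by
  have hv := Ψ.mul X _ _ _ _ (pow_hdg (Ψ := Ψ) hD (X.dim - 2 * (j + 1) + 1)) hx
  rw [show (X.dim - 2 * (j + 1) + 1) + (j + 1) = X.dim - j by omega] at hv
  obtain ⟨y, hy, hyv⟩ := hL j (by omega) _ hv
  refine ⟨y, hy, ?_⟩
  rw [mul_sub, ← mul_assoc, ← pow_succ, sub_eq_zero, ← hyv]
  congr 2
  omega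

/-- The element is positive up to the sign `(-1) ^ j`. -/
def Pos (W : WeilCohomology.{u, v} ops) (j : ℕ) (t : W.K) : Prop :=
  ∃ r : ℚ, 0 < r ∧ (-1) ^ j * t = (r : W.K)

lemma not_pos_zero {j : ℕ} : ¬ Pos W j 0 := by
  rintro ⟨r, hr, h⟩
  rw [mul_zero] at h
  exact hr.ne' (by exact_mod_cast h.symm)

/-- The inductive step of the Hodge index theorem. -/
lemma hdg_step {D : X.Cycles} (hD : X.IsCyc 1 D) (hR : HodgeRiemann Ψ X D) {j : ℕ}
    (hj : 2 * (j + 1) ≤ X.dim) {x y y' : W.H X} (hx : x ∈ Ψ.Hdg X (j + 1)) (hy : y ∈ Ψ.Hdg X j)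
    (hprim : W.cl X D ^ (X.dim - 2 * (j + 1) + 1) * (x - W.cl X D * y) = 0)
    (hyy : y ≠ 0 → Pos W j (W.tr X (W.cl X D ^ (X.dim - 2 * j) * y * y'))) (hne : x ≠ 0) :
    Pos W (j + 1) (W.tr X (W.cl X D ^ (X.dim - 2 * (j + 1)) * x *
      ((x - W.cl X D * y) - W.cl X D * y'))) := by
  set w := W.cl X D with hw
  obtain ⟨x₀, hx₀⟩ : ∃ x₀, x₀ = x - w * y := ⟨_, rfl⟩
  rw [← hx₀] at hprim ⊢
  have hwH : w ∈ Ψ.Hdg X 1 := Ψ.cl X 1 D hD
  have hwy : w * y ∈ Ψ.Hdg X (j + 1) := by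
    have := Ψ.mul X _ _ _ _ hwH hy; rwa [add_comm] at this
  have hx₀H : x₀ ∈ Ψ.Hdg X (j + 1) := by rw [hx₀]; exact Submodule.sub_mem _ hx hwy
  set m := X.dim - 2 * (j + 1) with hm
  have hwc : ∀ a, w * a = a * w := hdg_even hwH
  have hx₀c : ∀ a, x₀ * a = a * x₀ := hdg_even hx₀H
  have e1 : w ^ m * x * (x₀ - w * y') = w ^ m * x₀ * x₀ - w ^ (m + 2) * y * y' := by
    have h1 : x = x₀ + w * y := by rw [hx₀]; abel
    have h2 : w ^ m * x₀ * (w * y') = 0 := by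
      rw [← mul_assoc, mul_assoc (w ^ m), ← hwc, ← mul_assoc, ← pow_succ, hprim, zero_mul]
    have h3 : w ^ m * (w * y) * x₀ = 0 := by
      rw [← mul_assoc, ← pow_succ, mul_assoc, ← hx₀c, ← mul_assoc, hprim, zero_mul]
    have h4 : w ^ m * (w * y) * (w * y') = w ^ (m + 2) * y * y' := by
      rw [← mul_assoc (w ^ m * (w * y)), ← mul_assoc (w ^ m), mul_assoc (w ^ m * w) y w, ← hwc y,
        ← mul_assoc (w ^ m * w), ← pow_succ, ← pow_succ]
    have h5 : w ^ m * x * (x₀ - w * y') = w ^ m * (x₀ + w * y) * (x₀ - w * y') := by rw [← h1]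
    rw [h5, mul_add, add_mul, mul_sub, mul_sub, h2, h3, h4]
    abel
  have e2 : m + 2 = X.dim - 2 * j := by omega
  have e3 : (-1 : W.K) ^ (j + 1) * W.tr X (w ^ m * x * (x₀ - w * y')) =
      (-1 : W.K) ^ (j + 1) * W.tr X (w ^ m * x₀ * x₀) +
      (-1 : W.K) ^ j * W.tr X (w ^ (X.dim - 2 * j) * y * y') := by
    rw [e1, e2, map_sub, pow_succ]; ring
  have hA : x₀ ≠ 0 → Pos W (j + 1) (W.tr X (w ^ m * x₀ * x₀)) := fun h =>
    hR (j + 1) hj x₀ hx₀H hprim h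
  rcases eq_or_ne x₀ 0 with h0 | h0
  · rcases eq_or_ne y 0 with h1 | h1
    · exfalso
      apply hne
      have h2 : x = x₀ + w * y := by rw [hx₀]; abel
      rw [h2, h0, h1, mul_zero, add_zero]
    · obtain ⟨r, hr, h2⟩ := hyy h1
      refine ⟨r, hr, ?_⟩
      rw [e3, h2, h0]
      simp
  · rcases eq_or_ne y 0 with h1 | h1
    · obtain ⟨r, hr, h2⟩ := hA h0
      refine ⟨r, hr, ?_⟩
      rw [e3, h2, h1]
      simp
    · obtain ⟨r, hr, h2⟩ := hA h0
      obtain ⟨r', hr', h3⟩ := hyy h1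
      exact ⟨r + r', add_pos hr hr', by rw [e3, h2, h3, Rat.cast_add]⟩

/-- **The Hodge index theorem** for the Hodge classes. -/
lemma hdg_star {D : X.Cycles} (hD : X.IsCyc 1 D) (hL : Lefschetz Ψ X D)
    (hR : HodgeRiemann Ψ X D) (j : ℕ) :
    2 * j ≤ X.dim → ∀ x ∈ Ψ.Hdg X j, ∃ x' ∈ Ψ.Hdg X j, (x ≠ 0 →
      Pos W j (W.tr X (W.cl X D ^ (X.dim - 2 * j) * x * x'))) := by
  induction j with
  | zero =>
    intro hj x hx
    refine ⟨x, hx, hR 0 hj x hx ?_⟩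
    have h1 := Ψ.gr X _ (Ψ.mul X _ _ _ _ (pow_hdg (Ψ := Ψ) hD (X.dim - 2 * 0 + 1)) hx)
    rw [W.gr_eq_bot X _ (by omega)] at h1
    exact (Submodule.mem_bot _).1 h1
  | succ j ih =>
    intro hj x hx
    obtain ⟨y, hy, hprim⟩ := hdg_decomp hD hL hj hx
    obtain ⟨y', hy', hyy⟩ := ih (by omega) y hy
    refine ⟨(x - W.cl X D * y) - W.cl X D * y', ?_, hdg_step hD hR hj hx hy hprim hyy⟩
    have hwH : W.cl X D ∈ Ψ.Hdg X 1 := Ψ.cl X 1 D hD
    have hwy : W.cl X D * y ∈ Ψ.Hdg X (j + 1) := by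
      have := Ψ.mul X _ _ _ _ hwH hy; rwa [add_comm] at this
    have hwy' : W.cl X D * y' ∈ Ψ.Hdg X (j + 1) := by
      have := Ψ.mul X _ _ _ _ hwH hy'; rwa [add_comm] at this
    exact Submodule.sub_mem _ (Submodule.sub_mem _ hx hwy) hwy'

/-- The intersection pairing on the Hodge classes is nondegenerate. -/
lemma hdg_nondeg (hpol : IsPolarised Ψ) {j l : ℕ} (hjl : j + l = X.dim) {x : W.H X}
    (hx : x ∈ Ψ.Hdg X j) (h : ∀ y ∈ Ψ.Hdg X l, W.tr X (x * y) = 0) : x = 0 := by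
  obtain ⟨D, hD, hL, hR⟩ := hpol X
  by_cases h2j : 2 * j ≤ X.dim
  · by_contra hne
    obtain ⟨x', hx', hp⟩ := hdg_star hD hL hR j h2j x hx
    have h1 := hp hne
    have h2 : W.cl X D ^ (X.dim - 2 * j) * x' ∈ Ψ.Hdg X l := by
      have := Ψ.mul X _ _ _ _ (pow_hdg (Ψ := Ψ) hD (X.dim - 2 * j)) hx'
      rwa [show X.dim - 2 * j + j = l by omega] at this
    have h3 : W.cl X D ^ (X.dim - 2 * j) * x * x' =
        x * (W.cl X D ^ (X.dim - 2 * j) * x') := by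
      rw [hdg_even (pow_hdg (Ψ := Ψ) hD _), mul_assoc]
    rw [h3, h _ h2] at h1
    exact not_pos_zero h1
  · have hj' : j = X.dim - l := by omega
    subst hj'
    obtain ⟨x₁, hx₁, rfl⟩ := hL l (by omega) _ hx
    obtain ⟨x', hx', hp⟩ := hdg_star hD hL hR l (by omega) x₁ hx₁
    by_cases hne : x₁ = 0
    · rw [hne, mul_zero]
    · have h1 := hp hne
      rw [h _ hx'] at h1
      exact absurd h1 not_pos_zero

/-- If the Hodge classes of the complementary degree are algebraic, numerical and homological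
equivalence coincide. -/
lemma numIsHom_of_compl (hpol : IsPolarised Ψ) {e l : ℕ} (hel : e + l = X.dim)
    (h : AlgIn Ψ X l) : NumIsHom W X e := by
  intro b hb hnum
  apply hdg_nondeg hpol hel (Ψ.cl X e b hb)
  intro y hy
  obtain ⟨z, hz, rfl⟩ := h y hy
  exact hnum z ((isDim_iff (by omega)).2 hz)

/-- If the Hodge classes of degree `2 j` are algebraic, so are those of degree `2 dim X - 2 j`, for
`2 j ≤ dim X`. -/
lemma algIn_compl (hpol : IsPolarised Ψ) {j l : ℕ} (hjl : j + l = X.dim) (hj : 2 * j ≤ X.dim)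
    (h : AlgIn Ψ X j) : AlgIn Ψ X l := by
  intro c hc
  obtain ⟨D, hD, hL, -⟩ := hpol X
  obtain rfl : l = X.dim - j := by omega
  obtain ⟨x, hx, rfl⟩ := hL j hj c hc
  obtain ⟨z, hz, rfl⟩ := h x hx
  obtain ⟨w, hw, h1⟩ := pow_cyc (W := W) hD (X.dim - 2 * j)
  refine ⟨ops.mul w z, ?_, by rw [W.cl_mul, h1]⟩
  have := ops.mul_mem hw hz
  rwa [show X.dim - 2 * j + j = X.dim - j by omega] at this

/-- **Lieberman's argument**: if the Hodge classes of degree `2 j` are algebraic, then numerical and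
homological equivalence coincide for cycles of codimension `j + 1`. -/
lemma numIsHom_succ (hpol : IsPolarised Ψ) {j : ℕ} (hj : 2 * (j + 1) ≤ X.dim)
    (h : AlgIn Ψ X j) : NumIsHom W X (j + 1) := by
  intro b hb hnum
  obtain ⟨D, hD, hL, hR⟩ := hpol X
  have hx : W.cl X b ∈ Ψ.Hdg X (j + 1) := Ψ.cl X _ b hb
  obtain ⟨y, hy, hprim⟩ := hdg_decomp hD hL hj hx
  obtain ⟨y', hy', hyy⟩ := hdg_star hD hL hR j (by omega) y hy
  by_contra hne
  have hpos := hdg_step hD hR hj hx hy hprim hyy hne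
  -- the test class is algebraic
  obtain ⟨z₁, hz₁, hz₁'⟩ := h y hy
  obtain ⟨z₂, hz₂, hz₂'⟩ := h y' hy'
  obtain ⟨zm, hzm, hzm'⟩ := pow_cyc (W := W) hD (X.dim - 2 * (j + 1))
  have hDz : X.IsCyc (j + 1) (ops.mul D z₁) := by
    have := ops.mul_mem hD hz₁; rwa [add_comm] at this
  have hDz' : X.IsCyc (j + 1) (ops.mul D z₂) := by
    have := ops.mul_mem hD hz₂; rwa [add_comm] at this
  have ht : X.IsCyc (j + 1) (b + (-1 : ℚ) • ops.mul D z₁ + (-1 : ℚ) • ops.mul D z₂) :=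
    (hb.add (hDz.smul _)).add (hDz'.smul _)
  have ht' : W.cl X (b + (-1 : ℚ) • ops.mul D z₁ + (-1 : ℚ) • ops.mul D z₂) =
      (W.cl X b - W.cl X D * y) - W.cl X D * y' := by
    rw [map_add, map_add, W.cl_smul, W.cl_smul, W.cl_mul, W.cl_mul, hz₁', hz₂']
    simp only [Rat.cast_neg, Rat.cast_one, neg_smul, one_smul]
    rw [sub_eq_add_neg, sub_eq_add_neg]
  have h1 := hnum (ops.mul zm (b + (-1 : ℚ) • ops.mul D z₁ + (-1 : ℚ) • ops.mul D z₂))
    ((isDim_iff (q := X.dim - 2 * (j + 1) + (j + 1)) (by omega)).2 (ops.mul_mem hzm ht))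
  rw [W.cl_mul, hzm', ht', ← mul_assoc, hdg_even hx] at h1
  rw [h1] at hpos
  exact not_pos_zero hpos

/-- Numerical and homological equivalence coincide for cycles of codimension at most `2` and for
cycles of dimension at most `1`. -/
lemma numIsHom_low (hrat : HasRationalCoefficients W) (hpol : IsPolarised Ψ)
    (hlef : LefschetzOneOne Ψ) {e : ℕ} (he : e ≤ 2 ∨ X.dim ≤ e + 1) : NumIsHom W X e := by
  have h1 : AlgIn Ψ X 1 := hlef X
  by_cases hd : X.dim < e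
  · intro b hb _
    have h2 := W.cl_mem hb
    rw [W.gr_eq_bot _ _ (by omega)] at h2
    exact (Submodule.mem_bot _).1 h2
  obtain ⟨l, hl⟩ : ∃ l, e + l = X.dim := ⟨X.dim - e, by omega⟩
  by_cases hl1 : l ≤ 1
  · exact numIsHom_of_compl hpol hl (algIn_le_one hrat h1 hl1)
  · have he2 : e ≤ 2 := by omega
    by_cases he0 : e ≤ 1
    · exact numIsHom_of_compl hpol hl
        (algIn_compl hpol hl (by omega) (algIn_le_one hrat h1 he0))
    · obtain rfl : e = 1 + 1 := by omega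
      exact numIsHom_succ hpol (by omega) h1

/-- **Main theorem.** -/
theorem low (hrat : HasRationalCoefficients W) (hpol : IsPolarised Ψ)
    (hlef : LefschetzOneOne Ψ) (R : RatEquiv W) (V : OpenVar 𝒱) (hV : IsCellular W R V.X)
    (hdim : ∀ i, (V.Y i).dim < V.X.dim) (e : ℕ) (he : e ≤ 2 ∨ V.X.dim ≤ e + 2) :
    HomIsRat R V e :=
  homIsRat_of hrat R V hV e fun _ hx hnum i =>
    numIsHom_low hrat hpol hlef (by have := hdim i; omega) _ (ops.pull_mem _ hx) (hnum i)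

end Pool.Agent.R914.Cell
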