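import Pool.Agent.R914.Cell.Defs
import Pool.Agent.H914R2.WeilBasic

/-!
# Open subvarieties of cellular varieties: proofs
-/

open CategoryTheory AlgebraicGeometry

universe u v

namespace Pool.Agent.R914.Cell

open Pool.Agent.H914 Pool.Agent.H914.VarClass Pool.Agent.H914.VarClass.Obj
  Pool.Agent.H914.WeilCohomology

open Pool.Agent.Y133.Half (algSet)

variable {k : Type u} [Field k] {𝒱 : VarClass k} {ops : CycleOps 𝒱}
  {W : WeilCohomology.{u, v} ops} {X Y : 𝒱.Obj}

lemma IsDim.zero (Y : 𝒱.Obj) (e : ℕ) : IsDim Y e 0 := Or.inl rfl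

lemma isDim_iff {Y : 𝒱.Obj} {e q : ℕ} (h : q + e = Y.dim) {w : Y.Cycles} :
    IsDim Y e w ↔ Y.IsCyc q w := by
  constructor
  · rintro (rfl | ⟨q', hq', hw⟩)
    · exact SmVar.IsCyc.zero _ _
    · obtain rfl : q' = q := by omega
      exact hw
  · intro hw
    exact Or.inr ⟨q, h, hw⟩

lemma IsDim.eq_zero {Y : 𝒱.Obj} {e : ℕ} (h : Y.dim < e) {w : Y.Cycles} (hw : IsDim Y e w) :
    w = 0 := by
  rcases hw with rfl | ⟨q, hq, _⟩
  · rfl
  · omega

lemma IsDim.add {Y : 𝒱.Obj} {e : ℕ} {w w' : Y.Cycles} (hw : IsDim Y e w) (hw' : IsDim Y e w') :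
    IsDim Y e (w + w') := by
  rcases hw with rfl | ⟨q, hq, hw⟩
  · rwa [zero_add]
  · exact (isDim_iff hq).2 (hw.add ((isDim_iff hq).1 hw'))

lemma IsDim.smul {Y : 𝒱.Obj} {e : ℕ} {w : Y.Cycles} (c : ℚ) (hw : IsDim Y e w) :
    IsDim Y e (c • w) := by
  rcases hw with rfl | ⟨q, hq, hw⟩
  · rw [smul_zero]; exact IsDim.zero _ _
  · exact (isDim_iff hq).2 (hw.smul c)

/-- The push-forward of a cycle of dimension `e`. -/
lemma cl_push_mem (f : Y ⟶ X) {e q : ℕ} (hq : q + e = X.dim) {w : Y.Cycles}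
    (hw : IsDim Y e w) : W.cl X (ops.push f w) ∈ W.gr X (2 * q) := by
  rcases hw with rfl | ⟨q', hq', hw⟩
  · rw [W.cl_push, map_zero, map_zero]; exact Submodule.zero_mem _
  · exact W.cl_mem (ops.push_mem f hw (by omega))

lemma smul_cl (hrat : HasRationalCoefficients W) (r : W.K) (z : X.Cycles) :
    ∃ q : ℚ, r • W.cl X z = W.cl X (q • z) := by
  obtain ⟨q, rfl⟩ := hrat r
  exact ⟨q, (W.cl_smul q z).symm⟩

/-- The component of codimension `e` of a combination of classes of algebraic cycles. -/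
lemma exists_comp (hrat : HasRationalCoefficients W) {p e : ℕ} (h : p + e = X.dim) {b : W.H X}
    (hb : b ∈ Submodule.span W.K (algSet W X)) :
    ∃ x : X.Cycles, X.IsCyc e x ∧
      ∀ s ∈ W.gr X (2 * p), W.tr X (b * s) = W.tr X (W.cl X x * s) := by
  induction hb using Submodule.span_induction with
  | mem c hc =>
    obtain ⟨j, z, hz, rfl⟩ := hc
    by_cases hj : j = e
    · subst hj
      exact ⟨z, hz, fun s _ => rfl⟩
    · refine ⟨0, SmVar.IsCyc.zero _ _, fun s hs => ?_⟩
      rw [map_zero, zero_mul, map_zero]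
      exact W.tr_eq_zero (W.mul_mem (W.cl_mem hz) hs) (by omega)
  | zero => exact ⟨0, SmVar.IsCyc.zero _ _, fun s _ => by rw [map_zero]⟩
  | add a b _ _ ha hb =>
    obtain ⟨x, hx, hxs⟩ := ha
    obtain ⟨y, hy, hys⟩ := hb
    refine ⟨x + y, hx.add hy, fun s hs => ?_⟩
    rw [add_mul, map_add, hxs s hs, hys s hs, map_add, add_mul, map_add]
  | smul r a _ ha =>
    obtain ⟨x, hx, hxs⟩ := ha
    obtain ⟨q, rfl⟩ := hrat r
    refine ⟨q • x, hx.smul q, fun s hs => ?_⟩
    rw [smul_mul_assoc, map_smul, hxs s hs, W.cl_smul, smul_mul_assoc, map_smul]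

lemma eq_of_homogeneous {p e : ℕ} (h : p + e = X.dim) {a b : W.H X} (ha : a ∈ W.gr X (2 * p))
    (hb : b ∈ W.gr X (2 * p))
    (hab : ∀ s ∈ W.gr X (2 * e), W.tr X (a * s) = W.tr X (b * s)) : a = b := by
  apply W.tr_ext
  intro c
  have hc : c ∈ ⨆ i, W.gr X i := by
    rw [(W.isInternal X).submodule_iSup_eq_top]; trivial
  induction hc using Submodule.iSup_induction' with
  | mem i c hc =>
    by_cases hi : i = 2 * e
    · subst hi; exact hab c hc
    · rw [W.tr_eq_zero (W.mul_mem ha hc) (by omega), W.tr_eq_zero (W.mul_mem hb hc) (by omega)]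
  | zero => simp
  | add c d _ _ hc hd => rw [mul_add, mul_add, map_add, map_add, hc, hd]

/-- A combination of classes of algebraic cycles which is of degree `2 p` is the class of an
algebraic cycle of codimension `p`. -/
lemma exists_cycle (hrat : HasRationalCoefficients W) {p e : ℕ} (h : p + e = X.dim) {b : W.H X}
    (hb : b ∈ Submodule.span W.K (algSet W X)) (hb' : b ∈ W.gr X (2 * p)) :
    ∃ x : X.Cycles, X.IsCyc p x ∧ W.cl X x = b := by
  obtain ⟨x, hx, hxs⟩ := exists_comp hrat (p := e) (e := p) (by omega) hb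
  exact ⟨x, hx, (eq_of_homogeneous h hb' (W.cl_mem hx) hxs).symm⟩

lemma tr_pull (f : Y ⟶ X) {e : ℕ} {x : X.Cycles} (hx : X.IsCyc e x) (a : W.H Y) :
    W.tr Y (W.cl Y (ops.pull f x) * a) = W.tr X (W.cl X x * W.push f a) := by
  rw [W.cl_pull, W.even_comm (W.map_mem f (W.cl_mem hx)), ← W.tr_push,
    W.even_comm (W.cl_mem hx)]

/-- The classes of the cycles of dimension `e` supported on the complement. -/
def bdry (W : WeilCohomology.{u, v} ops) (hrat : HasRationalCoefficients W) (V : OpenVar 𝒱)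
    (e : ℕ) : Submodule W.K (W.H V.X) where
  carrier := {c | ∃ w : ∀ i, (V.Y i).Cycles, (∀ i, IsDim (V.Y i) e (w i)) ∧
    c = ∑ i, W.cl V.X (ops.push (V.f i) (w i))}
  zero_mem' := ⟨fun _ => 0, fun _ => IsDim.zero _ _, by
    simp only [W.cl_push, map_zero, Finset.sum_const_zero]⟩
  add_mem' := by
    rintro a b ⟨w, hw, rfl⟩ ⟨w', hw', rfl⟩
    refine ⟨fun i => w i + w' i, fun i => (hw i).add (hw' i), ?_⟩
    simp only [W.cl_push, map_add, Finset.sum_add_distrib]
  smul_mem' := by
    rintro r a ⟨w, hw, rfl⟩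
    obtain ⟨q, rfl⟩ := hrat r
    refine ⟨fun i => q • w i, fun i => (hw i).smul q, ?_⟩
    simp only [W.cl_push, W.cl_smul, map_smul, Finset.smul_sum]

lemma IsCellular.mem_span {R : RatEquiv W} (h : IsCellular W R X) (a : W.H X) :
    a ∈ Submodule.span W.K (algSet W X) := by
  rw [h.1]; trivial

/-- If the cycles on `X` of codimension `e` whose pull-backs to the varieties `Y i` are numerically
trivial have homologically trivial pull-backs, then the homologically trivial cycles of dimension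
`e` on the open subvariety are rationally trivial. -/
theorem homIsRat_of (hrat : HasRationalCoefficients W) (R : RatEquiv W) (V : OpenVar 𝒱)
    (hV : IsCellular W R V.X)
    (e : ℕ) (hD : ∀ x : V.X.Cycles, V.X.IsCyc e x →
      (∀ i, NumTrivial W (V.Y i) e (ops.pull (V.f i) x)) →
      ∀ i, W.cl (V.Y i) (ops.pull (V.f i) x) = 0) : HomIsRat R V e := by
  rintro z (rfl | ⟨q, hq, hz⟩) ⟨h, hh⟩
  · refine ⟨fun _ => 0, fun _ => IsDim.zero _ _, hV.2 _ ?_⟩
    simp only [map_sub, map_sum, W.cl_push, map_zero, Finset.sum_const_zero, sub_zero]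
  · by_contra hne
    have hS : W.cl V.X z ∉ bdry W hrat V e := by
      rintro ⟨w, hw, hzw⟩
      apply hne
      refine ⟨w, hw, hV.2 _ ?_⟩
      rw [map_sub, hzw, map_sum, sub_self]
    obtain ⟨φ, hφ, hφS⟩ := Submodule.exists_le_ker_of_notMem hS
    obtain ⟨b, hb⟩ : ∃ b : W.H V.X, ∀ a, φ a = W.tr V.X (b * a) := by
      have hinj : Function.Injective
          ((LinearMap.mul W.K (W.H V.X)).compr₂ (W.tr V.X) : W.H V.X →ₗ[W.K] _) := by
        rw [injective_iff_map_eq_zero]
        intro b hb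
        exact W.nondeg b fun a => by simpa using LinearMap.congr_fun hb a
      have hsurj := (LinearMap.injective_iff_surjective_of_finrank_eq_finrank
        (Subspace.dual_finrank_eq (K := W.K) (V := W.H V.X)).symm).1 hinj
      obtain ⟨b, hb⟩ := hsurj φ
      exact ⟨b, fun a => by rw [← hb]; simp⟩
    obtain ⟨x, hx, hxs⟩ := exists_comp hrat hq (hV.mem_span b)
    have key : ∀ i, W.cl (V.Y i) (ops.pull (V.f i) x) = 0 := by
      apply hD x hx
      intro i w hw
      rw [tr_pull (V.f i) hx, ← W.cl_push, ← hxs _ (cl_push_mem (V.f i) hq hw), ← hb]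
      have : W.cl V.X (ops.push (V.f i) w) ∈ bdry W hrat V e := by
        classical
        refine ⟨fun j => if hj : j = i then hj ▸ w else 0, fun j => ?_, ?_⟩
        · by_cases hj : j = i
          · subst hj; simpa using hw
          · simp only [hj, dite_false]; exact IsDim.zero _ _
        · rw [Finset.sum_eq_single i]
          · simp
          · intro j _ hj
            simp only [hj, dite_false, W.cl_push, map_zero]
          · intro hi; exact absurd (Finset.mem_univ i) hi
      exact hφS this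
    apply hφ
    rw [hb, hxs _ (W.cl_mem hz), hh, Finset.mul_sum, map_sum]
    apply Finset.sum_eq_zero
    intro i _
    rw [← tr_pull (V.f i) hx, key i, zero_mul, map_zero]

/-- The converse. -/
theorem of_homIsRat (hrat : HasRationalCoefficients W) (R : RatEquiv W) (V : OpenVar 𝒱)
    (hV : IsCellular W R V.X)
    (e : ℕ) (he : e ≤ V.X.dim) (hR : HomIsRat R V e) (x : V.X.Cycles) (hx : V.X.IsCyc e x)
    (hnum : ∀ i, NumTrivial W (V.Y i) e (ops.pull (V.f i) x)) (i : V.ι) :
    W.cl (V.Y i) (ops.pull (V.f i) x) = 0 := by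
  classical
  by_cases hY : e ≤ (V.Y i).dim
  · obtain ⟨q, hq⟩ : ∃ q, q + e = (V.Y i).dim := ⟨_, Nat.sub_add_cancel hY⟩
    obtain ⟨p, hp⟩ : ∃ p, p + e = V.X.dim := ⟨_, Nat.sub_add_cancel he⟩
    apply eq_of_homogeneous (p := e) (e := q) (by omega)
      (W.cl_mem (ops.pull_mem (V.f i) hx)) (Submodule.zero_mem _)
    intro s hs
    rw [zero_mul, map_zero, tr_pull (V.f i) hx]
    have hmem : W.push (V.f i) s ∈ W.gr V.X (2 * p) := by
      have h1 := W.push_mem (V.f i) hs
      have h2 : ((2 * q : ℕ) : ℤ) + 2 * ((V.X.dim : ℤ) - (V.Y i).dim) = ((2 * p : ℕ) : ℤ) := by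
        push_cast; omega
      rwa [h2, grZ_natCast] at h1
    obtain ⟨z, hz, hzs⟩ := exists_cycle hrat hp (hV.mem_span (W.push (V.f i) s)) hmem
    obtain ⟨w, hw, hzw⟩ := hR z ((isDim_iff hp).2 hz) ⟨fun j => if hj : j = i then hj ▸ s else 0, by
      rw [Finset.sum_eq_single i]
      · simp [hzs]
      · intro j _ hj
        simp only [hj, dite_false, map_zero]
      · intro hi; exact absurd (Finset.mem_univ i) hi⟩
    have hzw' := R.cl_eq_zero _ _ hzw
    rw [map_sub, sub_eq_zero, map_sum] at hzw'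
    rw [← hzs, hzw', Finset.mul_sum, map_sum]
    apply Finset.sum_eq_zero
    intro j _
    rw [W.cl_push, ← tr_pull (V.f j) hx]
    exact hnum j (w j) (hw j)
  · have h1 := W.cl_mem (ops.pull_mem (V.f i) hx)
    rw [W.gr_eq_bot _ _ (by omega)] at h1
    exact (Submodule.mem_bot _).1 h1

/-- **Main theorem.** The cycle class maps of all open subvarieties of the varieties of a
classifying class are injective if and only if numerical and homological equivalence coincide on
all varieties. -/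
theorem main (hrat : HasRationalCoefficients W) (R : RatEquiv W) (G : 𝒱.Obj → Prop)
    (hG : IsClassifyingClass R G) :
    (∀ V : OpenVar 𝒱, G V.X → ∀ e, HomIsRat R V e) ↔
      ∀ (Y : 𝒱.Obj) (e : ℕ), NumIsHom W Y e := by
  constructor
  · intro h Y e b hb hnum
    obtain ⟨X, f, hX, hf⟩ := hG.enough Y
    obtain ⟨x, hx, hbx⟩ := hf e b hb
    by_cases he : e ≤ X.dim
    · have h1 := of_homIsRat hrat R ⟨X, Unit, fun _ => Y, fun _ => f⟩ (hG.cellular X hX) e he
        (h ⟨X, Unit, fun _ => Y, fun _ => f⟩ hX e) x hx (fun _ w hw => by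
          rw [W.cl_pull, ← hbx]; exact hnum w hw) ()
      rw [hbx, ← W.cl_pull]
      exact h1
    · have h1 := W.cl_mem hx
      rw [W.gr_eq_bot _ _ (by omega)] at h1
      rw [hbx, (Submodule.mem_bot _).1 h1, map_zero]
  · intro h V hV e
    exact homIsRat_of hrat R V (hG.cellular _ hV) e fun x hx hnum i =>
      h (V.Y i) e _ (ops.pull_mem _ hx) (hnum i)

end Pool.Agent.R914.Cell
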